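import Pool.Agent.H56.CF.Targets
import Pool.Agent.H24.Cls.Exist

/-!
# Complete family, part R: the ideals of norm `n` and the roots (AKN)
-/

set_option autoImplicit false

open NumberField Module
open scoped nonZeroDivisors

namespace Pool.Agent.H51.CF

open Pool.Agent.H56.CF Pool.Agent.H91.CF Pool.Agent.H28.RC Pool.Agent.H24.Cls

theorem pf_AKN (hH : T_HNF) : T_AKN := by
  intro K _ _ hK n hn
  obtain ⟨Q, hQ⟩ := exists_quad K hK
  obtain ⟨T, hT⟩ : ∃ T : Finset (Σ _ : ℕ, ℕ), T =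
      ((Finset.Icc 1 n).filter (fun e => e ^ 2 ∣ n)).sigma (fun e =>
        (Finset.range (2 * (n / e ^ 2))).filter fun B : ℕ =>
          (4 * ((n / e ^ 2 : ℕ) : ℤ)) ∣ (B : ℤ) ^ 2 - discr K) := ⟨_, rfl⟩
  have hTc : T.card = ∑ e ∈ (Finset.Icc 1 n).filter (fun e => e ^ 2 ∣ n),
      rts (n / e ^ 2) (discr K) := by
    rw [hT, Finset.card_sigma]
    rfl
  have key : ∀ I : Ideal (𝓞 K), Ideal.absNorm I = n → ∃ p : (Σ _ : ℕ, ℕ), p ∈ T ∧ ∃ b : ℤ,
      (2 * ((n / p.1 ^ 2 : ℕ) : ℤ)) ∣ 2 * b + Q.t - (p.2 : ℤ) ∧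
      ∀ x y : ℤ, (x : 𝓞 K) + y * Q.w ∈ I ↔
        ∃ x' y' : ℤ, x = p.1 * x' ∧ y = p.1 * y' ∧ ((n / p.1 ^ 2 : ℕ) : ℤ) ∣ x' - y' * b := by
    intro I hI
    have hI0 : I ≠ ⊥ := by
      rintro rfl
      rw [Ideal.absNorm_bot] at hI
      omega
    obtain ⟨e, A, b, he, hA, hN, hd, hm⟩ := hH K Q I hI0
    rw [hI] at hN
    have he2 : 0 < e ^ 2 := by positivity
    have hnA : n / e ^ 2 = A := by rw [hN, Nat.mul_div_cancel_left _ he2]
    have hA2 : (0 : ℤ) < 2 * A := by exact_mod_cast (by omega : 0 < 2 * A)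
    have hB0 : 0 ≤ (2 * b + Q.t) % (2 * A) := Int.emod_nonneg _ hA2.ne'
    have hB1 : (2 * b + Q.t) % (2 * A) < 2 * A := Int.emod_lt_of_pos _ hA2
    obtain ⟨B, hB⟩ := Int.eq_ofNat_of_zero_le hB0
    obtain ⟨s, hs⟩ : ∃ s : ℤ, 2 * b + Q.t = 2 * A * s + B := by
      refine ⟨(2 * b + Q.t) / (2 * A), ?_⟩
      have := Int.mul_ediv_add_emod (2 * b + Q.t) (2 * A)
      rw [hB] at this
      exact this.symm
    refine ⟨⟨e, B⟩, ?_, b, ?_, ?_⟩
    · rw [hT, Finset.mem_sigma, Finset.mem_filter, Finset.mem_filter, Finset.mem_Icc,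
        Finset.mem_range]
      refine ⟨⟨⟨he, ?_⟩, ⟨A, hN⟩⟩, ?_, ?_⟩
      · calc e = e * 1 := (mul_one e).symm
          _ ≤ e * e := Nat.mul_le_mul_left e he
          _ = e ^ 2 * 1 := by ring
          _ ≤ e ^ 2 * A := Nat.mul_le_mul_left _ hA
          _ = n := hN.symm
      · show B < 2 * (n / e ^ 2)
        rw [hnA]
        rw [hB] at hB1
        exact_mod_cast hB1
      · show (4 * ((n / e ^ 2 : ℕ) : ℤ)) ∣ (B : ℤ) ^ 2 - discr K
        rw [hnA]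
        obtain ⟨q, hq⟩ := hd
        refine ⟨q - s * (2 * b + Q.t) + A * s ^ 2, ?_⟩
        have h1 : (B : ℤ) = 2 * b + Q.t - 2 * A * s := by linarith
        rw [h1, ← hQ]
        unfold Quad.D
        linear_combination 4 * hq
    · show (2 * ((n / e ^ 2 : ℕ) : ℤ)) ∣ 2 * b + Q.t - (B : ℤ)
      rw [hnA, hs]
      exact ⟨s, by ring⟩
    · intro x y
      show _ ↔ ∃ x' y' : ℤ, x = e * x' ∧ y = e * y' ∧ ((n / e ^ 2 : ℕ) : ℤ) ∣ x' - y' * b
      rw [hnA]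
      exact hm x y
  choose! F hF1 hF2 using key
  have h1 : aK K n ≤ (T : Set (Σ _ : ℕ, ℕ)).ncard := by
    unfold aK
    refine Set.ncard_le_ncard_of_injOn F (fun I hI => ?_) ?_ T.finite_toSet
    · exact hF1 I hI
    · intro I hI I' hI' h
      obtain ⟨b, hb1, hb2⟩ := hF2 I hI
      obtain ⟨b', hb1', hb2'⟩ := hF2 I' hI'
      rw [← h] at hb1' hb2'
      have h3 : ((n / (F I).1 ^ 2 : ℕ) : ℤ) ∣ b - b' := by
        have h4 := dvd_sub hb1 hb1'
        have h5 : 2 * b + Q.t - ((F I).2 : ℤ) - (2 * b' + Q.t - ((F I).2 : ℤ)) = 2 * (b - b') := by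
          ring
        rw [h5] at h4
        exact (mul_dvd_mul_iff_left (by norm_num : (2 : ℤ) ≠ 0)).1 h4
      ext z
      obtain ⟨x, y, rfl⟩ := Q.gen z
      rw [hb2, hb2']
      constructor
      · rintro ⟨x', y', e1, e2, e3⟩
        refine ⟨x', y', e1, e2, ?_⟩
        have h4 := dvd_add e3 (Dvd.dvd.mul_left h3 y')
        have h5 : x' - y' * b + y' * (b - b') = x' - y' * b' := by ring
        rwa [h5] at h4
      · rintro ⟨x', y', e1, e2, e3⟩
        refine ⟨x', y', e1, e2, ?_⟩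
        have h4 := dvd_sub e3 (Dvd.dvd.mul_left h3 y')
        have h5 : x' - y' * b' - y' * (b - b') = x' - y' * b := by ring
        rwa [h5] at h4
  rw [Set.ncard_coe_finset, hTc] at h1
  exact h1

end Pool.Agent.H51.CF
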