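import Pool.Agent.H56.CF.Targets
import Pool.Agent.H24.Cls.Exist

/-!
# Complete family, part R: the number of residues modulo the integers (NVF)
-/

set_option autoImplicit false

open NumberField Module
open scoped nonZeroDivisors

namespace Pool.Agent.H51.CF

open Pool.Agent.H56.CF Pool.Agent.H91.CF Pool.Agent.H28.RC Pool.Agent.H24.Cls

theorem pf_NVF : T_NVF := by
  intro K _ _ hK f hf
  have hNZ : NeZero f := ⟨by omega⟩
  obtain ⟨Q, hQ⟩ := exists_quad K hK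
  obtain ⟨I, hI⟩ : ∃ I : Ideal (𝓞 K), I = Ideal.span {(f : 𝓞 K)} := ⟨_, rfl⟩
  have hr : finrank ℤ (𝓞 K) = 2 := by rw [RingOfIntegers.rank, hK]
  have hN : Ideal.absNorm (Ideal.span {(f : 𝓞 K)}) = f ^ 2 := by
    rw [Ideal.absNorm_span_singleton]
    have h1 : ((f : ℕ) : 𝓞 K) = algebraMap ℤ (𝓞 K) (f : ℤ) := by simp
    rw [h1, Algebra.norm_algebraMap, hr, Int.natAbs_pow, Int.natAbs_natCast]
  have hcard : Nat.card (𝓞 K ⧸ Ideal.span {(f : 𝓞 K)}) = f ^ 2 := by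
    rw [← hN, Ideal.absNorm_apply, Submodule.cardQuot_apply]
  have hfin : Finite (𝓞 K ⧸ Ideal.span {(f : 𝓞 K)}) := by
    apply Nat.finite_of_card_ne_zero
    rw [hcard]
    positivity
  have hcp : CharP (𝓞 K ⧸ Ideal.span {(f : 𝓞 K)}) f := by
    constructor
    intro x
    have h1 : ((x : ℕ) : 𝓞 K ⧸ Ideal.span {(f : 𝓞 K)}) =
        Ideal.Quotient.mk (Ideal.span {(f : 𝓞 K)}) (x : 𝓞 K) := by simp
    rw [h1, Ideal.Quotient.eq_zero_iff_mem, Ideal.mem_span_singleton]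
    constructor
    · rintro ⟨z, hz⟩
      obtain ⟨a, b, rfl⟩ := Q.gen z
      have h2 : ((x : ℤ) : 𝓞 K) + ((0 : ℤ) : 𝓞 K) * Q.w =
          ((f * a : ℤ) : 𝓞 K) + ((f * b : ℤ) : 𝓞 K) * Q.w := by
        push_cast
        linear_combination hz
      have h3 := (Q.ext h2).1
      exact Int.natCast_dvd_natCast.1 ⟨a, h3⟩
    · rintro ⟨y, rfl⟩
      exact ⟨(y : 𝓞 K), by push_cast; ring⟩
  have hdiv := Subgroup.card_eq_card_quotient_mul_card_subgroup (VF K f)
  have hU : Nat.card (𝓞 K ⧸ Ideal.span {(f : 𝓞 K)})ˣ ≤ f ^ 2 := by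
    rw [← hcard]
    exact Nat.card_le_card_of_injective _ Units.val_injective
  have hV : f.totient ≤ Nat.card (VF K f) := by
    have h1 : Nat.card (ZMod f)ˣ = f.totient := by
      rw [Nat.card_eq_fintype_card, ZMod.card_units_eq_totient]
    rw [← h1]
    have h2 : ∀ u : (ZMod f)ˣ, Units.map (ZMod.castHom (dvd_refl f)
        (𝓞 K ⧸ Ideal.span {(f : 𝓞 K)}) : ZMod f →* _) u ∈ VF K f := by
      intro u
      apply Subgroup.subset_closure
      refine ⟨(u : ZMod f).val, ?_⟩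
      rw [Units.coe_map, MonoidHom.coe_coe]
      have h3 : (u : ZMod f) = (((u : ZMod f).val : ℕ) : ZMod f) :=
        (ZMod.natCast_zmod_val _).symm
      conv_lhs => rw [h3]
      rw [map_natCast, map_natCast]
    refine Nat.card_le_card_of_injective (fun u => ⟨_, h2 u⟩) ?_
    intro u v huv
    have h3 := congrArg Subtype.val huv
    exact Units.map_injective (ZMod.castHom_injective _) h3
  refine ⟨inferInstance, ?_⟩
  calc Nat.card ((𝓞 K ⧸ Ideal.span {(f : 𝓞 K)})ˣ ⧸ VF K f) * f.totient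
      ≤ Nat.card ((𝓞 K ⧸ Ideal.span {(f : 𝓞 K)})ˣ ⧸ VF K f) * Nat.card (VF K f) :=
        Nat.mul_le_mul_left _ hV
    _ = Nat.card (𝓞 K ⧸ Ideal.span {(f : 𝓞 K)})ˣ := hdiv.symm
    _ ≤ f ^ 2 := hU

end Pool.Agent.H51.CF
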